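import Pool.Agent.R708.CN.D

/-!
# MP_a05165_al, Q1: the answer is no

If infinitely many open normal subgroups `N` of a topologically finitely generated pro-`p` group
`G` satisfy `d_G(N) ≥ c log_p (G : N)`, then for every `ε < c` infinitely many open characteristic
subgroups `C` satisfy `d_G(C) ≥ ε log_p (G : C)`.
-/

universe u

namespace Pool.Agent.Results.MP_a05165_al.CharacteristicRankForced

/-- The closed normal closure of a set `S` in a topological group. -/
def closedNormalClosure {G : Type*} [Group G] [TopologicalSpace G] [IsTopologicalGroup G]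
    (S : Set G) : Subgroup G :=
  (Subgroup.normalClosure S).topologicalClosure

/-- `d_G(N)`: the least cardinality of a finite set whose closed normal closure in `G` is `N`. -/
noncomputable def normalRank {G : Type*} [Group G] [TopologicalSpace G] [IsTopologicalGroup G]
    (N : Subgroup G) : ℕ :=
  sInf {k : ℕ | ∃ S : Finset G, S.card = k ∧ closedNormalClosure (S : Set G) = N}

/-- `C` is invariant under all automorphisms of the topological group `G`. -/
def IsChar {G : Type*} [Group G] [TopologicalSpace G] (C : Subgroup G) : Prop :=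
  ∀ α : G ≃ₜ* G, C.map α.toMulEquiv.toMonoidHom = C

/-- Topologically finitely generated pro-`p` group: a compact Hausdorff totally disconnected
topological group all of whose open normal subgroups have `p`-power index, with a finite subset
generating a dense subgroup. -/
structure IsFGProP (p : ℕ) (G : Type*) [Group G] [TopologicalSpace G] : Prop where
  topGroup : IsTopologicalGroup G
  compact : CompactSpace G
  hausdorff : T2Space G
  totDisc : TotallyDisconnectedSpace G
  index : ∀ N : Subgroup G, N.Normal → IsOpen (N : Set G) → ∃ k : ℕ, N.index = p ^ k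
  fg : ∃ S : Finset G, Dense ((Subgroup.closure (S : Set G) : Subgroup G) : Set G)

theorem strong {p : ℕ} (hp : p.Prime) {G : Type*} [Group G] [TopologicalSpace G]
    [IsTopologicalGroup G] (hG : IsFGProP p G) {c ε : ℝ} (hε : ε < c)
    (h : {N : Subgroup G | IsOpen (N : Set G) ∧ N.Normal ∧
      c * Real.logb p N.index ≤ normalRank N}.Infinite) :
    {C : Subgroup G | IsOpen (C : Set G) ∧ IsChar C ∧
      ε * Real.logb p C.index ≤ normalRank C}.Infinite := by
  have : Fact p.Prime := ⟨hp⟩
  have := hG.compact
  have := hG.hausdorff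
  have := hG.totDisc
  exact Pool.R708.CN.main (p := p) hG.index hG.fg hε h

/-- For open normal subgroups the infimum in `normalRank` is attained. -/
theorem attained {p : ℕ} (hp : p.Prime) {G : Type*} [Group G] [TopologicalSpace G]
    [IsTopologicalGroup G] (hG : IsFGProP p G) (N : Subgroup G) (hN : N.Normal)
    (oN : IsOpen (N : Set G)) :
    ∃ S : Finset G, S.card = normalRank N ∧ closedNormalClosure (S : Set G) = N := by
  have : Fact p.Prime := ⟨hp⟩
  obtain ⟨S, hS⟩ := Pool.R708.CN.exists_finite_gens hG.fg hN oN
    (Pool.R708.CN.index_pos (p := p) hG.index hN oN)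
  have hne : Set.Nonempty
      {k : ℕ | ∃ S : Finset G, S.card = k ∧ closedNormalClosure (S : Set G) = N} :=
    ⟨S.card, S, rfl, hS⟩
  exact Nat.sInf_mem hne

/-- **MP_a05165_al Q1, negative answer.**
(1) For open normal subgroups of a finitely generated pro-`p` group `G`, `d_G` is attained.
(2) If `d_G(N) ≥ c log_p (G : N)` for infinitely many open normal `N`, then for every `ε < c`
`d_G(C) ≥ ε log_p (G : C)` for infinitely many open characteristic `C`.
(3) There are no prime `p`, infinite finitely generated pro-`p` group `G` and `c > 0` with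
properties (i) and (ii) of the question. -/
theorem result :
    (∀ (p : ℕ), p.Prime → ∀ (G : Type u) [Group G] [TopologicalSpace G] [IsTopologicalGroup G],
      IsFGProP p G →
      (∀ N : Subgroup G, N.Normal → IsOpen (N : Set G) →
        ∃ S : Finset G, S.card = normalRank N ∧ closedNormalClosure (S : Set G) = N) ∧
      ∀ c ε : ℝ, ε < c →
        {N : Subgroup G | IsOpen (N : Set G) ∧ N.Normal ∧
          c * Real.logb p N.index ≤ normalRank N}.Infinite →
        {C : Subgroup G | IsOpen (C : Set G) ∧ IsChar C ∧
          ε * Real.logb p C.index ≤ normalRank C}.Infinite) ∧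
    ¬ ∃ (p : ℕ) (G : Type u) (_ : Group G) (_ : TopologicalSpace G) (_ : IsTopologicalGroup G)
        (c : ℝ), p.Prime ∧ Infinite G ∧ IsFGProP p G ∧ 0 < c ∧
      {N : Subgroup G | IsOpen (N : Set G) ∧ N.Normal ∧
        c * Real.logb p N.index ≤ normalRank N}.Infinite ∧
      ∀ ε : ℝ, 0 < ε →
        {C : Subgroup G | IsOpen (C : Set G) ∧ IsChar C ∧ C ≠ ⊤ ∧
          ¬ ((normalRank C : ℝ) < ε * Real.logb p C.index)}.Finite := by
  refine ⟨fun p hp G _ _ _ hG => ⟨fun N hN oN => attained hp hG N hN oN,
    fun c ε hε h => strong hp hG hε h⟩, ?_⟩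
  rintro ⟨p, G, _, _, _, c, hp, -, hG, hc, h1, h2⟩
  have h3 := strong hp hG (c := c) (ε := c / 2) (by linarith) h1
  apply h3
  refine ((h2 (c / 2) (by linarith)).union (Set.finite_singleton (⊤ : Subgroup G))).subset ?_
  rintro C ⟨hC1, hC2, hC3⟩
  by_cases ht : C = ⊤
  · exact Or.inr ht
  · exact Or.inl ⟨hC1, hC2, ht, not_lt.mpr hC3⟩

end Pool.Agent.Results.MP_a05165_al.CharacteristicRankForced
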